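import Pool.Agent.T6.H63.LD.Flow

/-!
Potentials on forests, and unique games.
-/

set_option autoImplicit false

namespace Pool.Agent.T6.H47.SS

open Pool.Agent.T6.H63.LD

section pot

variable {X K : Type} [AddCommGroup K] {G : SimpleGraph X}

/-- The sum of `θ` along a walk. -/
def wsum (θ : X → X → K) {x y : X} (p : G.Walk x y) : K :=
  (p.darts.map fun e => θ e.fst e.snd).sum

theorem wsum_concat (θ : X → X → K) {x y z : X} (p : G.Walk x y) (h : G.Adj y z) :
    wsum θ (p.concat h) = wsum θ p + θ y z := by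
  unfold wsum
  rw [SimpleGraph.Walk.darts_concat, List.concat_eq_append, List.map_append, List.sum_append]
  simp

theorem wsum_copy (θ : X → X → K) {x x' y : X} (p : G.Walk x y) (h : x = x') :
    wsum θ (p.copy h rfl) = wsum θ p := by
  subst h
  rfl

theorem wsum_adj (hG : G.IsAcyclic) (θ : X → X → K) (hθ : ∀ x y, θ y x = -θ x y) {a x y : X}
    {p : G.Walk a x} {p' : G.Walk a y} (hp : p.IsPath) (hp' : p'.IsPath) (h : G.Adj x y) :
    wsum θ p' - wsum θ p = θ x y := by
  classical
  by_cases hy : y ∈ p.support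
  · have h1 : p.takeUntil y hy = p' := by
      have := hG.path_unique ⟨p.takeUntil y hy, hp.takeUntil hy⟩ ⟨p', hp'⟩
      exact congrArg Subtype.val this
    have h2 : x ∉ (p.takeUntil y hy).support :=
      SimpleGraph.Walk.endpoint_notMem_support_takeUntil hp hy h.ne
    rw [h1] at h2
    have h3 : p'.concat h.symm = p := by
      have := hG.path_unique ⟨p'.concat h.symm, hp'.concat h2 h.symm⟩ ⟨p, hp⟩
      exact congrArg Subtype.val this
    rw [← h3, wsum_concat, hθ]
    abel
  · have h3 : p.concat h = p' := by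
      have := hG.path_unique ⟨p.concat h, hp.concat hy h⟩ ⟨p', hp'⟩
      exact congrArg Subtype.val this
    rw [← h3, wsum_concat]
    abel

/-- Potentials on a forest. -/
theorem exists_potential (hG : G.IsAcyclic) (θ : X → X → K) (hθ : ∀ x y, θ y x = -θ x y) :
    ∃ φ : X → K, ∀ x y, G.Adj x y → φ y - φ x = θ x y := by
  classical
  have hroot : ∀ x, G.Reachable (G.connectedComponentMk x).out x := fun x =>
    SimpleGraph.ConnectedComponent.exact (Quot.out_eq (G.connectedComponentMk x))
  have hpath : ∀ x, ∃ p : G.Walk (G.connectedComponentMk x).out x, p.IsPath := fun x =>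
    (hroot x).exists_isPath
  choose P hP using hpath
  refine ⟨fun x => wsum θ (P x), fun x y h => ?_⟩
  have h1 : (G.connectedComponentMk y).out = (G.connectedComponentMk x).out := by
    rw [SimpleGraph.ConnectedComponent.sound h.reachable]
  have h2 := wsum_adj hG θ hθ (hP x) (p' := (P y).copy h1 rfl) (by
    rw [SimpleGraph.Walk.isPath_copy]
    exact hP y) h
  rw [wsum_copy] at h2
  exact h2

end pot

variable {U V E K : Type} [AddCommGroup K] {s : E → U} {d : E → V}

/-- Labels that satisfy the edges of a forest. -/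
theorem forest_labels (hinj : ∀ e e', s e = s e' → d e = d e' → e = e') {F : Set E}
    (hF : (gr s d F).IsAcyclic) (c : E → K) :
    ∃ (x : U → K) (y : V → K), ∀ e ∈ F, x (s e) + c e = y (d e) := by
  classical
  let w : U → V → K := fun u v => if h : ∃ e, s e = u ∧ d e = v then c h.choose else 0
  have hw : ∀ e, w (s e) (d e) = c e := by
    intro e
    have h : ∃ e', s e' = s e ∧ d e' = d e := ⟨e, rfl, rfl⟩
    simp only [w]
    rw [dif_pos h]
    rw [hinj _ _ h.choose_spec.1 h.choose_spec.2]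
  let θ : U ⊕ V → U ⊕ V → K := fun a b =>
    match a, b with
    | Sum.inl u, Sum.inr v => w u v
    | Sum.inr v, Sum.inl u => - w u v
    | _, _ => 0
  obtain ⟨φ, hφ⟩ := exists_potential hF θ (by
    rintro (u | v) (u' | v') <;> simp [θ])
  refine ⟨fun u => φ (Sum.inl u), fun v => φ (Sum.inr v), fun e he => ?_⟩
  have h1 := hφ _ _ (gr_adj he)
  have h2 : θ (Sum.inl (s e)) (Sum.inr (d e)) = c e := hw e
  rw [h2] at h1
  rw [← h1]
  abel

/-- In a satisfiable unique game it is enough to satisfy the edges of a spanning forest. -/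
theorem spanning (s : E → U) (d : E → V) :
    ∃ F : Set E, (gr s d F).IsAcyclic ∧ ∀ (K : Type) [AddCommGroup K] (c : E → K)
      (x x' : U → K) (y y' : V → K), (∀ e ∈ F, x (s e) + c e = y (d e)) →
      (∀ e, x' (s e) + c e = y' (d e)) → ∀ e, x (s e) + c e = y (d e) := by
  classical
  obtain ⟨T, hT1, hT2, hT3⟩ := (gr s d Set.univ).exists_isAcyclic_reachable_eq_le
  have hFT : gr s d {e | T.Adj (Sum.inl (s e)) (Sum.inr (d e))} ≤ T := by
    rintro a b ⟨e, he, ⟨rfl, rfl⟩ | ⟨rfl, rfl⟩⟩
    · exact he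
    · exact he.symm
  have hTF : T ≤ gr s d {e | T.Adj (Sum.inl (s e)) (Sum.inr (d e))} := by
    intro a b hab
    obtain ⟨e, -, ⟨rfl, rfl⟩ | ⟨rfl, rfl⟩⟩ := hT1 hab
    · exact ⟨e, hab, Or.inl ⟨rfl, rfl⟩⟩
    · exact ⟨e, hab.symm, Or.inr ⟨rfl, rfl⟩⟩
  refine ⟨{e | T.Adj (Sum.inl (s e)) (Sum.inr (d e))}, hT2.anti hFT, ?_⟩
  intro K _ c x x' y y' h h' e
  let φ : U ⊕ V → K := Sum.elim (fun u => x u - x' u) (fun v => y v - y' v)
  have hstep : ∀ a b, T.Adj a b → φ a = φ b := by
    intro a b hab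
    obtain ⟨f, hf, ⟨rfl, rfl⟩ | ⟨rfl, rfl⟩⟩ := hTF hab
    · simp only [φ, Sum.elim_inl, Sum.elim_inr]
      rw [← h f hf, ← h' f]
      abel
    · simp only [φ, Sum.elim_inl, Sum.elim_inr]
      rw [← h f hf, ← h' f]
      abel
  have hwalk : ∀ a b, T.Reachable a b → φ a = φ b := by
    rintro a b ⟨p⟩
    induction p with
    | nil => rfl
    | cons hab _ ih => exact (hstep _ _ hab).trans ih
  have hreach : T.Reachable (Sum.inl (s e)) (Sum.inr (d e)) := by
    rw [hT3]
    exact (gr_adj (Set.mem_univ e)).reachable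
  have h1 := hwalk _ _ hreach
  simp only [φ, Sum.elim_inl, Sum.elim_inr] at h1
  have h2 := h' e
  have h3 : x (s e) = y (d e) - y' (d e) + x' (s e) := by
    rw [← h1]
    abel
  rw [h3, ← h2]
  abel

end Pool.Agent.T6.H47.SS
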