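import Pool.Agent.T6.H47.SS.Wit5
import Pool.Agent.T6.H63.SK.Host

/-!
Labelings of planted square games by rules which see a forest and few linear forms.
-/

set_option autoImplicit false

namespace Pool.Agent.T6.H47.SS

open Finset Pool.Agent.T6.H63.LD Pool.Agent.T6.H63.SK

variable {U V E : Type} [Fintype U] [Fintype V] [Fintype E] [DecidableEq E] {s : E → U}
  {d : E → V} {q : ℕ} [Fact q.Prime]

theorem amgm {x y h τ : ℝ} (hh : 0 ≤ h) (hy : 0 ≤ y) (hτ : 0 < τ) (hxy : (x - y) ^ 2 ≤ h * y) :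
    x ≤ y + (h * τ + y / τ) / 2 := by
  have h1 : h * y ≤ ((h * τ + y / τ) / 2) ^ 2 := by
    have h2 : (h * τ) * (y / τ) = h * y := by field_simp
    nlinarith [sq_nonneg (h * τ - y / τ)]
  have h3 : 0 ≤ (h * τ + y / τ) / 2 := by positivity
  have := (abs_le_of_sq_le_sq' (hxy.trans h1) h3).2
  linarith

open Classical in
theorem core5 (hinj : ∀ e e', s e = s e' → d e = d e' → e = e') (t : ℕ)
    (hg : ((2 * (2 * t + 2) : ℕ) : ℕ∞) < (gr s d Set.univ).egirth) {δ : ℝ} (hδ : 0 < δ)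
    (hδ1 : δ ≤ 1 / 2)
    (hm : 3 * ((Fintype.card U : ℝ) + Fintype.card V + 1) ≤ δ ^ 2 * Fintype.card E)
    (hq : 8 / δ ^ 6 ≤ q) (T : ℕ)
    (F : E → (E → ZMod q) → ℝ) (Fo : E → Set E) (hFo : ∀ e, (gr s d (Fo e)).IsAcyclic)
    (a : E → Fin T → E → ZMod q)
    (hF0 : ∀ e c, 0 ≤ F e c) (hF1 : ∀ e c, F e c ≤ 1)
    (hloc : ∀ e c c', (∀ f ∈ Fo e, c f = c' f) →
      (∀ j, ∑ f, a e j f * c f = ∑ f, a e j f * c' f) → F e c = F e c')
    (hsat : ∀ (c : E → ZMod q) (k : ℝ), (∀ (x : U → ZMod q) (y : V → ZMod q),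
        ((univ.filter fun e => (x (s e) + c e) ^ 2 = y (d e)).card : ℝ) ≤ k) →
        ∑ e, F e c ≤ k)
    (hyes : ∀ c : E → ZMod q, (∃ (x : U → ZMod q) (y : V → ZMod q),
        ∀ e, (x (s e) + c e) ^ 2 = y (d e)) → δ * Fintype.card E ≤ ∑ e, F e c)
    (W : ℕ) (hW : (q : ℝ) ^ T / 2 ^ W ≤ 1 / 32) :
    2 ^ t < 16 * ((q : ℝ) ^ (Nat.log 2 (T * W) + 1) * ((T * W : ℕ) : ℝ) ^ 2) := by
  by_contra hcon
  push Not at hcon
  have hq0 : (0 : ℝ) < q := by exact_mod_cast (Fact.out : q.Prime).pos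
  have hδ6 : δ ^ 6 ≤ 1 / 64 := by
    calc δ ^ 6 ≤ (1 / 2) ^ 6 := by gcongr
      _ = 1 / 64 := by norm_num
  have hq2 : q ≠ 2 := by
    rintro rfl
    have h1 : (512 : ℝ) ≤ 8 / δ ^ 6 := by
      rw [le_div_iff₀ (by positivity)]
      linarith
    have h2 := h1.trans hq
    norm_num at h2
  set n := Fintype.card E with hn
  have hn0 : (0 : ℝ) < n := by
    by_contra h
    have h1 : (n : ℝ) = 0 := le_antisymm (not_lt.1 h) (Nat.cast_nonneg _)
    rw [h1] at hm
    have h2 : (0 : ℝ) ≤ Fintype.card U := Nat.cast_nonneg _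
    have h3 : (0 : ℝ) ≤ Fintype.card V := Nat.cast_nonneg _
    linarith
  have hCcard : (Fintype.card (E → ZMod q) : ℝ) = (q : ℝ) ^ n := by
    rw [Fintype.card_fun, ZMod.card]
    push_cast
    rfl
  set C : ℝ := (q : ℝ) ^ n with hC
  have hC0 : 0 < C := by positivity
  let P := (U → ZMod q) × (V → ZMod q)
  have hP0 : (0 : ℝ) < Fintype.card P := by exact_mod_cast Fintype.card_pos_iff.2 ⟨0⟩
  have hIcard : (Fintype.card (E → Bool) : ℝ) = 2 ^ n := by
    rw [Fintype.card_fun, Fintype.card_bool]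
    push_cast
    rfl
  have hI0 : (0 : ℝ) < Fintype.card (E → Bool) := by
    rw [hIcard]
    positivity
  let EY : E → ℝ := fun e => (∑ ε : E → Bool, ∑ p : P, F e (Phi2 s d q ε p)) /
    (Fintype.card (E → Bool) * Fintype.card P)
  let EN : E → ℝ := fun e => (∑ c : E → ZMod q, F e c) / Fintype.card (E → ZMod q)
  have hEN0 : ∀ e, 0 ≤ EN e := fun e => div_nonneg (sum_nonneg fun c _ => hF0 e c)
    (Nat.cast_nonneg _)
  have hdiff : ∀ e, EY e ≤ EN e + (47 / 480 * (3 * δ) + EN e / (3 * δ)) / 2 := by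
    intro e
    set B : Finset E := univ.filter fun f => f ∈ Fo e with hB
    set eq := Fintype.equivFin (B ⊕ Fin T) with heq
    set a0 : B ⊕ Fin T → E → ZMod q := Sum.elim (fun f => Pi.single f.1 1) (a e) with ha0
    set a' : Fin (Fintype.card (B ⊕ Fin T)) → E → ZMod q := fun j => a0 (eq.symm j) with ha'
    have hform : ∀ (c : E → ZMod q) (f : B), ∑ f', a0 (Sum.inl f) f' * c f' = c f.1 := by
      intro c f
      rw [sum_eq_single f.1]
      · simp [ha0]
      · intro f' _ hf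
        simp [ha0, hf]
      · intro h
        exact absurd (mem_univ _) h
    have hloc' : ∀ c c' : E → ZMod q, (∀ j, ∑ f, a' j f * c f = ∑ f, a' j f * c' f) →
        F e c = F e c' := by
      intro c c' h
      have h' : ∀ i, ∑ f, a0 i f * c f = ∑ f, a0 i f * c' f := by
        intro i
        have := h (eq i)
        simpa only [ha', Equiv.symm_apply_apply] using this
      refine hloc e c c' (fun f hf => ?_) (fun j => h' (Sum.inr j))
      have hfB : f ∈ B := by
        rw [hB, mem_filter]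
        exact ⟨mem_univ _, hf⟩
      have h1 := h' (Sum.inl ⟨f, hfB⟩)
      rw [hform, hform] at h1
      exact h1
    let g : (Fin (Fintype.card (B ⊕ Fin T)) → ZMod q) → ℝ := fun v =>
      if h : ∃ c : E → ZMod q, (fun j => ∑ f, a' j f * c f) = v then F e h.choose else 0
    have hg0 : ∀ v, 0 ≤ g v := by
      intro v
      simp only [g]
      split_ifs
      · exact hF0 _ _
      · exact le_rfl
    have hg1 : ∀ v, g v ≤ 1 := by
      intro v
      simp only [g]
      split_ifs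
      · exact hF1 _ _
      · exact zero_le_one
    have hgF : ∀ c, g (fun j => ∑ f, a' j f * c f) = F e c := by
      intro c
      have hex : ∃ c' : E → ZMod q,
          (fun j => ∑ f, a' j f * c' f) = (fun j => ∑ f, a' j f * c f) := ⟨c, rfl⟩
      simp only [g]
      rw [dif_pos hex]
      exact hloc' _ _ fun j => congrFun hex.choose_spec j
    have h1 := second_moment2 (Phi2 s d q) a' g hg0 hg1
    simp only [hgF] at h1
    have ha'0 : ∀ j, (∀ f, f ∉ Fo e → a' j f = 0) ∨ a' j ∈ Set.range (a e) := by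
      intro j
      rw [ha']
      simp only
      rcases eq.symm j with f | i
      · left
        intro f' hf'
        have hfF : f.1 ∈ Fo e := (mem_filter.1 f.2).2
        have hne : f' ≠ f.1 := fun h => hf' (h ▸ hfF)
        simp [ha0, hne]
      · right
        exact ⟨i, rfl⟩
    have h2 : (∑ ε : E → Bool, ∑ ε' : E → Bool,
        (Nat.card (wit (Phi2 s d q) a' ε ε') : ℝ)) / (Fintype.card (E → Bool) : ℝ) ^ 2 ≤
        16 / 15 + 1 / 32 := by
      rw [div_le_iff₀ (by positivity), hIcard]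
      calc ∑ ε : E → Bool, ∑ ε' : E → Bool, (Nat.card (wit (Phi2 s d q) a' ε ε') : ℝ)
          ≤ ∑ _ε : E → Bool, (2 : ℝ) ^ n * (16 / 15 + (q : ℝ) ^ T / 2 ^ W) :=
            sum_le_sum fun ε _ => wit_sum5 hinj t hg hq2 T W hcon (hFo e) (a e) a' ha'0 ε
        _ = 2 ^ n * (2 ^ n * (16 / 15 + (q : ℝ) ^ T / 2 ^ W)) := by
            rw [sum_const, card_univ, nsmul_eq_mul, hIcard]
        _ ≤ 2 ^ n * (2 ^ n * (16 / 15 + 1 / 32)) := by gcongr
        _ = _ := by ring
    have h3 : (EY e - EN e) ^ 2 ≤ 47 / 480 * EN e := by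
      refine h1.trans ?_
      refine mul_le_mul_of_nonneg_right ?_ (hEN0 e)
      linarith
    exact amgm (by norm_num) (hEN0 e) (by positivity) h3
  have hY : δ * n ≤ ∑ e, EY e := by
    have h1 : ∑ e, EY e = (∑ ε : E → Bool, ∑ p : P, ∑ e, F e (Phi2 s d q ε p)) /
        (Fintype.card (E → Bool) * Fintype.card P) := by
      simp only [EY]
      rw [← sum_div]
      congr 1
      rw [sum_comm]
      refine sum_congr rfl fun ε _ => ?_
      rw [sum_comm]
    rw [h1, le_div_iff₀ (by positivity)]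
    calc δ * n * ((Fintype.card (E → Bool) : ℝ) * Fintype.card P)
        = ∑ _ε : E → Bool, ∑ _p : P, δ * n := by
          rw [sum_const, sum_const, card_univ, card_univ, nsmul_eq_mul, nsmul_eq_mul]
          ring
      _ ≤ _ := by
        refine sum_le_sum fun ε _ => sum_le_sum fun p _ => ?_
        refine hyes _ ⟨p.1, fun v => p.2 v ^ 2, fun e => ?_⟩
        rw [Phi2_apply]
        have := sg_sq (q := q) (ε e)
        linear_combination (p.2 (d e)) ^ 2 * this
  have hN : ∑ e, EN e ≤ n * (δ ^ 2 + 1 / q) := by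
    have h1 : ∑ e, EN e = (∑ c : E → ZMod q, ∑ e, F e c) / C := by
      simp only [EN, hCcard]
      rw [← sum_div]
      congr 1
      rw [sum_comm]
    rw [h1, div_le_iff₀ hC0]
    set S := univ.filter fun c : E → ZMod q => ∃ (x : U → ZMod q) (y : V → ZMod q),
        δ ^ 2 * Fintype.card E <
          ((univ.filter fun e => (x (s e) + c e) ^ 2 = y (d e)).card : ℝ) with hS
    have h2 : (S.card : ℝ) ≤ C * (1 / q) := by
      refine no_card3 (by positivity) ?_ hm ?_
      · nlinarith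
      · rw [← pow_mul]
        exact hq
    have h3 : ∀ c, ∑ e, F e c ≤ δ ^ 2 * n + if c ∈ S then (n : ℝ) else 0 := by
      intro c
      by_cases hc : c ∈ S
      · rw [if_pos hc]
        have h4 : ∑ e, F e c ≤ n := by
          calc ∑ e, F e c ≤ ∑ _e : E, (1 : ℝ) := sum_le_sum fun e _ => hF1 e c
            _ = n := by simp [hn]
        have h5 : 0 ≤ δ ^ 2 * n := by positivity
        linarith
      · rw [if_neg hc, add_zero]
        refine hsat c _ fun x y => ?_
        by_contra h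
        push Not at h
        apply hc
        rw [hS, mem_filter]
        exact ⟨mem_univ _, x, y, h⟩
    calc ∑ c : E → ZMod q, ∑ e, F e c
        ≤ ∑ c : E → ZMod q, (δ ^ 2 * n + if c ∈ S then (n : ℝ) else 0) :=
          sum_le_sum fun c _ => h3 c
      _ = C * (δ ^ 2 * n) + S.card * n := by
          rw [sum_add_distrib, sum_const, card_univ, nsmul_eq_mul, hCcard, Finset.sum_ite_mem,
            univ_inter, sum_const, nsmul_eq_mul]
      _ ≤ C * (δ ^ 2 * n) + C * (1 / q) * n := by gcongr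
      _ = _ := by ring
  have hqi : 1 / (q : ℝ) ≤ δ ^ 2 / 128 := by
    have h1 : 8 ≤ q * δ ^ 6 := by
      rw [div_le_iff₀ (by positivity)] at hq
      exact hq
    rw [div_le_div_iff₀ hq0 (by norm_num)]
    have h2 : δ ^ 4 ≤ 1 / 16 := by
      calc δ ^ 4 ≤ (1 / 2) ^ 4 := by gcongr
        _ = 1 / 16 := by norm_num
    have h3 : (q : ℝ) * δ ^ 6 ≤ q * δ ^ 2 * (1 / 16) := by
      calc (q : ℝ) * δ ^ 6 = q * δ ^ 2 * δ ^ 4 := by ring
        _ ≤ q * δ ^ 2 * (1 / 16) := by gcongr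
    linarith
  have hN' : ∑ e, EN e ≤ n * (δ ^ 2 * (129 / 128)) := by
    refine hN.trans ?_
    gcongr
    linarith
  have hfin : ∑ e, EY e ≤ (1 + 1 / (6 * δ)) * ∑ e, EN e + n * (47 / 320 * δ) := by
    calc ∑ e, EY e ≤ ∑ e, (EN e + (47 / 480 * (3 * δ) + EN e / (3 * δ)) / 2) :=
          sum_le_sum fun e _ => hdiff e
      _ = ∑ e, ((1 + 1 / (6 * δ)) * EN e + 47 / 320 * δ) := by
          refine sum_congr rfl fun e _ => ?_
          field_simp
          ring
      _ = _ := by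
          rw [sum_add_distrib, ← mul_sum, sum_const, card_univ, nsmul_eq_mul]
  have h6 : (1 + 1 / (6 * δ)) * ∑ e, EN e ≤ (1 + 1 / (6 * δ)) * (n * (δ ^ 2 * (129 / 128))) := by
    gcongr
  have h7 : (1 + 1 / (6 * δ)) * (n * (δ ^ 2 * (129 / 128))) =
      n * δ * (δ * (129 / 128) + 129 / 768) := by
    field_simp
    ring
  have h8 : n * δ * (δ * (129 / 128) + 129 / 768) ≤ n * δ * (1 / 2 * (129 / 128) + 129 / 768) := by
    gcongr
  have h9 : 0 < (n : ℝ) * δ := by positivity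
  nlinarith

open Classical in
theorem lower5 (hinj : ∀ e e', s e = s e' → d e = d e' → e = e') (t : ℕ)
    (hg : ((4 * t + 4 : ℕ) : ℕ∞) < (gr s d Set.univ).egirth) {δ : ℝ} (hδ : 0 < δ)
    (hδ1 : δ ≤ 1 / 2)
    (hm : 3 * ((Fintype.card U : ℝ) + Fintype.card V + 1) ≤ δ ^ 2 * Fintype.card E)
    (hq : 8 / δ ^ 6 ≤ q) (T : ℕ) (F : E → (E → ZMod q) → ℝ) (Fo : E → Set E)
    (hFo : ∀ e, (gr s d (Fo e)).IsAcyclic) (a : E → Fin T → E → ZMod q)
    (hF0 : ∀ e c, 0 ≤ F e c) (hF1 : ∀ e c, F e c ≤ 1)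
    (hloc : ∀ e c c', (∀ f ∈ Fo e, c f = c' f) →
      (∀ j, ∑ f, a e j f * c f = ∑ f, a e j f * c' f) → F e c = F e c')
    (hsat : ∀ (c : E → ZMod q) (k : ℝ), (∀ (x : U → ZMod q) (y : V → ZMod q),
        ((univ.filter fun e => (x (s e) + c e) ^ 2 = y (d e)).card : ℝ) ≤ k) →
        ∑ e, F e c ≤ k)
    (hyes : ∀ c : E → ZMod q, (∃ (x : U → ZMod q) (y : V → ZMod q),
        ∀ e, (x (s e) + c e) ^ 2 = y (d e)) → δ * Fintype.card E ≤ ∑ e, F e c) :
    (2 : ℝ) ^ (t / (Real.logb 2 q + 4)) ≤ 2 * (Real.logb 2 q + 6) * (T : ℝ) ^ 2 := by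
  have hq0 : (0 : ℝ) < q := by exact_mod_cast (Fact.out : q.Prime).pos
  have hq1 : (1 : ℝ) ≤ q := by exact_mod_cast (Fact.out : q.Prime).one_lt.le
  set l := Real.logb 2 q with hl
  have hl0 : 0 ≤ l := Real.logb_nonneg (by norm_num) hq1
  have hql : (q : ℝ) = 2 ^ l := (Real.rpow_logb (by norm_num) (by norm_num) hq0).symm
  set W := ⌈(T : ℝ) * l⌉₊ + 5 with hWdef
  have hW : (q : ℝ) ^ T / 2 ^ W ≤ 1 / 32 := by
    rw [div_le_iff₀ (by positivity)]
    have h1 : (q : ℝ) ^ T = (2 : ℝ) ^ (T * l) := by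
      rw [mul_comm, Real.rpow_mul (by norm_num), ← hql, Real.rpow_natCast]
    have h2 : (2 : ℝ) ^ ((T : ℝ) * l) ≤ 2 ^ ⌈(T : ℝ) * l⌉₊ := by
      rw [← Real.rpow_natCast]
      exact Real.rpow_le_rpow_of_exponent_le (by norm_num) (Nat.le_ceil _)
    rw [h1, hWdef, pow_add]
    linarith
  have hcore := core5 hinj t (by
    have : 2 * (2 * t + 2) = 4 * t + 4 := by ring
    rw [this]
    exact hg) hδ hδ1 hm hq T F Fo hFo a hF0 hF1 hloc hsat hyes W hW
  have hT : 1 ≤ T := by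
    rcases Nat.eq_zero_or_pos T with h0 | h0
    · rw [h0] at hcore
      simp only [zero_mul, Nat.cast_zero] at hcore
      norm_num at hcore
      have : (0 : ℝ) < 2 ^ t := by positivity
      linarith
    · exact h0
  have hTR : (1 : ℝ) ≤ T := by exact_mod_cast hT
  have hW1 : 1 ≤ W := by omega
  have hTW : 1 ≤ T * W := Nat.mul_pos hT hW1
  set m : ℝ := ((T * W : ℕ) : ℝ) with hmdef
  have hm1 : 1 ≤ m := by
    rw [hmdef]
    exact_mod_cast hTW
  have hm0 : 0 < m := by linarith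
  have hWle : (W : ℝ) ≤ T * (l + 6) := by
    rw [hWdef]
    push_cast
    have h1 : (⌈(T : ℝ) * l⌉₊ : ℝ) < T * l + 1 := Nat.ceil_lt_add_one (by positivity)
    nlinarith
  have hmle : m ≤ (l + 6) * (T : ℝ) ^ 2 := by
    rw [hmdef]
    push_cast
    calc (T : ℝ) * W ≤ T * (T * (l + 6)) := by gcongr
      _ = _ := by ring
  have hlogm : (q : ℝ) ^ Nat.log 2 (T * W) ≤ m ^ l := by
    have h1 : ((2 : ℝ) ^ Nat.log 2 (T * W)) ≤ m := by
      rw [hmdef]
      exact_mod_cast Nat.pow_log_le_self 2 (by omega)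
    calc (q : ℝ) ^ Nat.log 2 (T * W) = ((2 : ℝ) ^ Nat.log 2 (T * W)) ^ l := by
          rw [hql, ← Real.rpow_natCast, ← Real.rpow_natCast, ← Real.rpow_mul (by norm_num),
            ← Real.rpow_mul (by norm_num), mul_comm]
      _ ≤ m ^ l := by gcongr
  have hkey : (2 : ℝ) ^ t ≤ (2 * m) ^ (l + 4) := by
    calc (2 : ℝ) ^ t ≤ 16 * ((q : ℝ) ^ (Nat.log 2 (T * W) + 1) * m ^ 2) := hcore.le
      _ = 16 * q * ((q : ℝ) ^ Nat.log 2 (T * W) * m ^ 2) := by
          rw [pow_succ]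
          ring
      _ ≤ 16 * q * (m ^ l * m ^ 2) := by gcongr
      _ = 2 ^ (l + 4) * m ^ (l + 2) := by
          rw [Real.rpow_add (by norm_num), Real.rpow_add hm0, ← hql, Real.rpow_ofNat,
            Real.rpow_ofNat]
          ring
      _ ≤ 2 ^ (l + 4) * m ^ (l + 4) := by
          have := Real.rpow_le_rpow_of_exponent_le hm1 (show l + 2 ≤ l + 4 by linarith)
          gcongr
      _ = _ := (Real.mul_rpow (by norm_num) hm0.le).symm
  have hl4 : 0 < l + 4 := by linarith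
  calc (2 : ℝ) ^ (t / (l + 4)) = ((2 : ℝ) ^ t) ^ (1 / (l + 4)) := by
        rw [← Real.rpow_natCast, ← Real.rpow_mul (by norm_num)]
        congr 1
        ring
    _ ≤ ((2 * m) ^ (l + 4)) ^ (1 / (l + 4)) := by gcongr
    _ = 2 * m := by
        rw [← Real.rpow_mul (by positivity), mul_one_div, div_self hl4.ne', Real.rpow_one]
    _ ≤ 2 * ((l + 6) * (T : ℝ) ^ 2) := by gcongr
    _ = _ := by ring


end Pool.Agent.T6.H47.SS
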