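import Pool.Agent.T6.H47.SS.Mom
import Pool.Agent.T6.H63.SK.Main

/-!
Signed flows supported on a forest and few further edges.
-/

set_option autoImplicit false

namespace Pool.Agent.T6.H47.SS

open Finset Module Pool.Agent.T6.H63.LD Pool.Agent.T6.H63.SK

variable {U V E : Type} [Fintype E] {s : E → U} {d : E → V} {q : ℕ} [Fact q.Prime]

open Classical in
/-- signed flows -/
def Sf (s : E → U) (d : E → V) (ε : E → Bool) (b : E → ZMod q) : Prop :=
  (∀ u, ∑ e ∈ univ.filter (fun e => s e = u), b e = 0) ∧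
    ∀ v, ∑ e ∈ univ.filter (fun e => d e = v), sg q (ε e) * b e = 0

theorem Sf.sub {ε : E → Bool} {b b' : E → ZMod q} (h : Sf s d ε b) (h' : Sf s d ε b') :
    Sf s d ε (b - b') := by
  classical
  refine ⟨fun u => ?_, fun v => ?_⟩
  · simp only [Pi.sub_apply, sum_sub_distrib]
    rw [h.1 u, h'.1 u, sub_zero]
  · simp only [Pi.sub_apply, mul_sub, sum_sub_distrib]
    rw [h.2 v, h'.2 v, sub_zero]

theorem sf_of_orth {ε : E → Bool} {b : E → ZMod q} (h : ∀ p, ∑ e, b e * Phi2 s d q ε p e = 0) :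
    Sf s d ε b := ⟨orth_U h, orth_V h⟩

/-- In the support of a signed flow no vertex has degree one. -/
theorem Sf.other (hinj : ∀ e e', s e = s e' → d e = d e' → e = e') {ε : E → Bool}
    {b : E → ZMod q} (h : Sf s d ε b) : ∀ u v, (gr s d {e | b e ≠ 0}).Adj u v →
      ∃ w, w ≠ v ∧ (gr s d {e | b e ≠ 0}).Adj u w := by
  classical
  rintro u v ⟨e, he, ⟨rfl, rfl⟩ | ⟨rfl, rfl⟩⟩
  · obtain ⟨e', h1, h2, h3⟩ := exists_other (f := s) he (h.1 (s e))
    refine ⟨Sum.inr (d e'), ?_, e', h3, Or.inl ⟨by rw [h2], rfl⟩⟩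
    intro h4
    exact h1 (hinj e' e h2 (Sum.inr.inj h4))
  · have he' : (fun e => sg q (ε e) * b e) e ≠ 0 := mul_ne_zero (sg_ne _) he
    obtain ⟨e', h1, h2, h3⟩ := exists_other (f := d) (a := fun e => sg q (ε e) * b e) he'
      (h.2 (d e))
    refine ⟨Sum.inl (s e'), ?_, e', right_ne_zero_of_mul h3, Or.inr ⟨by rw [h2], rfl⟩⟩
    intro h4
    exact h1 (hinj e' e (Sum.inl.inj h4) h2)

theorem Sf.zero_of_forest [Finite U] [Finite V]
    (hinj : ∀ e e', s e = s e' → d e = d e' → e = e') {ε : E → Bool} {b : E → ZMod q}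
    (h : Sf s d ε b) {F : Set E} (hF : (gr s d F).IsAcyclic) (hb : ∀ e, e ∉ F → b e = 0) :
    b = 0 := by
  by_contra hne
  obtain ⟨e0, he0⟩ : ∃ e, b e ≠ 0 := by
    by_contra hcon
    push Not at hcon
    exact hne (funext hcon)
  refine Pool.Agent.H968R3.not_acyclic (G := gr s d {e | b e ≠ 0})
    ⟨_, _, gr_adj (e := e0) he0⟩ (h.other hinj) ?_
  exact hF.anti (gr_mono fun e he => by
    by_contra hn
    exact he (hb e hn))

omit [Fintype E] in
open Classical in
/-- Many vertices of `V` on a walk. -/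
theorem walk_count {S : Set E} : ∀ {x y : U ⊕ V} (p : (gr s d S).Walk x y),
    p.length + (if x.isRight then 1 else 0) ≤ 2 * p.support.countP (fun z => z.isRight) := by
  intro x y p
  induction p with
  | nil =>
    rename_i x
    cases x <;> simp
  | @cons x z y hxz p ih =>
    rw [SimpleGraph.Walk.length_cons, SimpleGraph.Walk.support_cons, List.countP_cons]
    obtain ⟨e, -, ⟨rfl, rfl⟩ | ⟨rfl, rfl⟩⟩ := hxz
    · simp only [Sum.isRight_inr, if_true, Sum.isRight_inl] at ih ⊢
      simp
      omega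
    · simp only [Sum.isRight_inr, if_true, Sum.isRight_inl] at ih ⊢
      simp at ih ⊢
      omega

/-- A signed flow touches many vertices if the girth is large. -/
theorem Sf.touch [Finite U] [Finite V] (hinj : ∀ e e', s e = s e' → d e = d e' → e = e')
    {ε : E → Bool} {b : E → ZMod q} (h : Sf s d ε b) (hb : b ≠ 0) {l : ℕ}
    (hg : ((2 * l : ℕ) : ℕ∞) < (gr s d Set.univ).egirth) : l ≤ (tv d b).card := by
  classical
  obtain ⟨e0, he0⟩ : ∃ e, b e ≠ 0 := by
    by_contra hcon
    push Not at hcon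
    exact hb (funext hcon)
  rcases Nat.eq_zero_or_pos l with hl | hl
  · omega
  set B := gr s d {e | b e ≠ 0} with hB
  have h0 := Pool.Agent.H968R3.not_acyclic (G := B) ⟨_, _, gr_adj (e := e0) he0⟩ (h.other hinj)
  unfold SimpleGraph.IsAcyclic at h0
  push Not at h0
  obtain ⟨v, c, hc⟩ := h0
  have hBG : B ≤ gr s d Set.univ := gr_mono (Set.subset_univ _)
  have h1 : ((2 * l : ℕ) : ℕ∞) < (c.mapLe hBG).length :=
    hg.trans_le (SimpleGraph.egirth_le_length (hc.mapLe hBG))
  rw [SimpleGraph.Walk.length_map] at h1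
  have h3 : 2 * l < c.length := by exact_mod_cast h1
  set p := c.tail.take (2 * l) with hp
  have hpp : p.IsPath := hc.isPath_tail.take (2 * l)
  have hpl : p.length = 2 * l := by
    rw [hp, SimpleGraph.Walk.take_length, SimpleGraph.Walk.length_tail]
    omega
  have hcount := walk_count p
  rw [hpl] at hcount
  have hc2 : l ≤ p.support.countP (fun z => z.isRight) := by
    have : 2 * l ≤ 2 * p.support.countP (fun z => z.isRight) := le_trans (Nat.le_add_right _ _) hcount
    omega
  refine hc2.trans ?_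
  rw [List.countP_eq_length_filter]
  have hnd : (p.support.filter (fun z => z.isRight)).Nodup := hpp.support_nodup.filter _
  rw [← List.toFinset_card_of_nodup hnd]
  have hsub : (p.support.filter (fun z => z.isRight)).toFinset ⊆
      (tv d b).image (fun v => (Sum.inr v : U ⊕ V)) := by
    intro z hz
    rw [List.mem_toFinset, List.mem_filter] at hz
    obtain ⟨hz1, hz2⟩ := hz
    have hadj : ∃ w, B.Adj z w := by
      have hpn : ¬ p.Nil := by
        intro hn
        have := SimpleGraph.Walk.length_eq_zero_iff.2 hn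
        omega
      obtain ⟨e, he, hze⟩ := (SimpleGraph.Walk.mem_support_iff_exists_mem_edges_of_not_nil hpn).1 hz1
      have := p.edges_subset_edgeSet he
      induction e with
      | _ x y =>
        rw [SimpleGraph.mem_edgeSet] at this
        rcases Sym2.mem_iff.1 hze with rfl | rfl
        · exact ⟨_, this⟩
        · exact ⟨_, this.symm⟩
    obtain ⟨w, e, he, ⟨h5, h6⟩ | ⟨h5, h6⟩⟩ := hadj
    · rw [h5] at hz2
      simp at hz2
    · rw [mem_image]
      refine ⟨d e, ?_, h5.symm⟩
      rw [tv, mem_image]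
      exact ⟨e, by simpa using he, rfl⟩
  exact (card_le_card hsub).trans card_image_le

open Classical in
theorem wit_sum4 [Finite U] [Finite V] [DecidableEq E]
    (hinj : ∀ e e', s e = s e' → d e = d e' → e = e') {l : ℕ}
    (hg : ((2 * l : ℕ) : ℕ∞) < (gr s d Set.univ).egirth) (hq2 : q ≠ 2) {F : Set E}
    (hF : (gr s d F).IsAcyclic) (R : Finset E) {T : ℕ} (a : Fin T → E → ZMod q)
    (ha : ∀ j f, f ∉ F → f ∉ R → a j f = 0) (ε : E → Bool) :
    ∑ ε' : E → Bool, (Nat.card (wit (Phi2 s d q) a ε ε') : ℝ) ≤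
      2 ^ Fintype.card E * (1 + (q : ℝ) ^ R.card / 2 ^ l) := by
  have hq1 : (1 : ℝ) ≤ q := by exact_mod_cast (Fact.out : q.Prime).one_lt.le
  set n := Fintype.card E with hn
  set A : Finset (E → ZMod q) := univ.filter fun b =>
    Sf s d ε b ∧ ∀ f, f ∉ F → f ∉ R → b f = 0 with hA
  have hAc : (A.card : ℝ) ≤ (q : ℝ) ^ R.card := by
    have h1 : A.card ≤ (univ : Finset (R → ZMod q)).card := by
      refine card_le_card_of_injOn (fun b f => b f.1) (fun _ _ => mem_univ _) ?_
      intro b hb b' hb' hbb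
      rw [mem_coe, hA, mem_filter] at hb hb'
      rw [← sub_eq_zero]
      refine (hb.2.1.sub hb'.2.1).zero_of_forest hinj hF fun f hf => ?_
      by_cases hfR : f ∈ R
      · have := congrFun hbb ⟨f, hfR⟩
        simp only at this
        rw [Pi.sub_apply, this, sub_self]
      · rw [Pi.sub_apply, hb.2.2 f hf hfR, hb'.2.2 f hf hfR, sub_self]
    rw [card_univ, Fintype.card_fun, ZMod.card, Fintype.card_coe] at h1
    exact_mod_cast h1
  have hone : ∀ ε' : E → Bool, (Nat.card (wit (Phi2 s d q) a ε ε') : ℝ) ≤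
      1 + ∑ b ∈ A.erase 0, if Cf s d ε (fun e => ε e == ε' e) b then (1 : ℝ) else 0 := by
    intro ε'
    have h2 : Nat.card (wit (Phi2 s d q) a ε ε') =
        (univ.filter fun b => b ∈ wit (Phi2 s d q) a ε ε').card := by
      rw [Nat.card_eq_fintype_card, Fintype.card_subtype]
    rw [Finset.sum_boole, h2]
    have h3 : (univ.filter fun b => b ∈ wit (Phi2 s d q) a ε ε') ⊆
        insert 0 ((A.erase 0).filter fun b => Cf s d ε (fun e => ε e == ε' e) b) := by
      intro b hb
      obtain ⟨h4, h5, h6⟩ := mem_wit _ _ _ _ (mem_filter.1 hb).2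
      rw [mem_insert]
      by_cases hb0 : b = 0
      · exact Or.inl hb0
      · right
        rw [mem_filter, mem_erase, hA, mem_filter]
        refine ⟨⟨hb0, mem_univ _, sf_of_orth h5, ?_⟩, cf_of_orth hq2 h5 h6⟩
        intro f hf hfR
        have hle : Submodule.span (ZMod q) (Set.range a) ≤ LinearMap.ker
            (LinearMap.proj (R := ZMod q) (φ := fun _ : E => ZMod q) f) := by
          rw [Submodule.span_le]
          rintro y ⟨j, rfl⟩
          simp only [SetLike.mem_coe, LinearMap.mem_ker, LinearMap.proj_apply]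
          exact ha j f hf hfR
        exact hle h4
    have h7 := (card_le_card h3).trans (card_insert_le _ _)
    have h8 : ((univ.filter fun b => b ∈ wit (Phi2 s d q) a ε ε').card : ℝ) ≤
        (((A.erase 0).filter fun b => Cf s d ε (fun e => ε e == ε' e) b).card : ℝ) + 1 := by
      exact_mod_cast h7
    linarith
  have hre : ∀ G : (E → Bool) → ℝ, ∑ ε' : E → Bool, G (fun e => ε e == ε' e) = ∑ σ, G σ := by
    intro G
    have hinv : Function.Involutive fun (ε' : E → Bool) (e : E) => (ε e == ε' e) := by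
      intro x
      funext e
      change (ε e == (ε e == x e)) = x e
      cases ε e <;> cases x e <;> rfl
    exact Equiv.sum_comp (Function.Involutive.toPerm _ hinv) G
  have h2 : ∀ b ∈ A.erase 0, ∑ σ : E → Bool, (if Cf s d ε σ b then (1 : ℝ) else 0) ≤
      2 ^ n / 2 ^ l := by
    intro b hb
    rw [mem_erase, hA, mem_filter] at hb
    rw [Finset.sum_boole, le_div_iff₀ (by positivity)]
    have h3 := heavy_card (s := s) (d := d) ε b
    have h4 : 2 ^ l ≤ 2 ^ (tv d b).card :=
      Nat.pow_le_pow_right (by norm_num) (hb.2.2.1.touch hinj hb.1 hg)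
    have h5 := (Nat.mul_le_mul_left _ h4).trans h3
    exact_mod_cast h5
  calc ∑ ε' : E → Bool, (Nat.card (wit (Phi2 s d q) a ε ε') : ℝ)
      ≤ ∑ ε' : E → Bool, (1 + ∑ b ∈ A.erase 0,
        if Cf s d ε (fun e => ε e == ε' e) b then (1 : ℝ) else 0) := sum_le_sum fun ε' _ => hone ε'
    _ = ∑ σ : E → Bool, (1 + ∑ b ∈ A.erase 0, if Cf s d ε σ b then (1 : ℝ) else 0) :=
        hre fun σ => 1 + ∑ b ∈ A.erase 0, if Cf s d ε σ b then (1 : ℝ) else 0
    _ = 2 ^ n + ∑ b ∈ A.erase 0, ∑ σ : E → Bool, (if Cf s d ε σ b then (1 : ℝ) else 0) := by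
        rw [sum_add_distrib, sum_comm, sum_const, card_univ, nsmul_eq_mul, mul_one,
          Fintype.card_fun, Fintype.card_bool]
        push_cast
        rfl
    _ ≤ 2 ^ n + ∑ _b ∈ A.erase 0, (2 : ℝ) ^ n / 2 ^ l := by
        gcongr with b hb
        exact h2 b hb
    _ = 2 ^ n + (A.erase 0).card * (2 ^ n / 2 ^ l) := by rw [sum_const, nsmul_eq_mul]
    _ ≤ 2 ^ n + (q : ℝ) ^ R.card * (2 ^ n / 2 ^ l) := by
        gcongr
        refine le_trans ?_ hAc
        exact_mod_cast card_erase_le
    _ = _ := by ring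

end Pool.Agent.T6.H47.SS
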