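import Pool.Agent.T6.H63.SK.No

/-!
Second moment bound for functions of small mean, and random square games have small value with high
probability: variants of lemmas in `Pool/Agent/T6/H63/SK`.
-/

set_option autoImplicit false

namespace Pool.Agent.T6.H47.SS

open Finset Module Pool.Agent.T6.H63.SK

section moment

variable {E K : Type} [Fintype E] [Field K] [Fintype K]

theorem second_moment2 {I P : Type} [Fintype I] [Nonempty I] [AddCommGroup P] [Module K P]
    [Fintype P] [DecidableEq E] (Φ : I → P →ₗ[K] (E → K)) {T : ℕ} (a : Fin T → E → K)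
    (f : (Fin T → K) → ℝ) (hf0 : ∀ v, 0 ≤ f v) (hf1 : ∀ v, f v ≤ 1) :
    ((∑ i, ∑ p, f (fun j => ∑ e, a j e * Φ i p e)) / (Fintype.card I * Fintype.card P) -
      (∑ c : E → K, f (fun j => ∑ e, a j e * c e)) / Fintype.card (E → K)) ^ 2 ≤
    ((∑ i, ∑ i', (Nat.card (wit Φ a i i') : ℝ)) / (Fintype.card I : ℝ) ^ 2 - 1) *
      ((∑ c : E → K, f (fun j => ∑ e, a j e * c e)) / Fintype.card (E → K)) := by
  classical
  set N := orth (Submodule.span K (Set.range a)) with hN
  set M : I → Submodule K (E → K) := fun i => LinearMap.range (Φ i) ⊔ N with hM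
  set F : (E → K) → ℝ := fun c => f (fun j => ∑ e, a j e * c e) with hF
  have hFinv : ∀ c, ∀ n ∈ N, F (c + n) = F c := by
    intro c n hn
    simp only [hF, Pi.add_apply, mul_add, sum_add_distrib]
    congr 1
    ext j
    rw [mem_orth_span a hn j, add_zero]
  have hI : (0 : ℝ) < Fintype.card I := by exact_mod_cast Fintype.card_pos
  have hP : (0 : ℝ) < Fintype.card P := by exact_mod_cast Fintype.card_pos_iff.2 ⟨0⟩
  set G : ℝ := (Fintype.card (E → K) : ℝ) with hG
  have hG0 : 0 < G := by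
    rw [hG]
    exact_mod_cast Fintype.card_pos
  have hMc : ∀ i, (0 : ℝ) < Nat.card (M i) := fun i => by exact_mod_cast Nat.card_pos
  -- the density
  set g : I → (E → K) → ℝ := fun i c => if c ∈ M i then G / Nat.card (M i) else 0 with hg
  set D : (E → K) → ℝ := fun c => (∑ i, g i c) / Fintype.card I with hD
  have hmean : ∀ i, (∑ p, F (Φ i p)) / Fintype.card P = (∑ c, F c * g i c) / G := by
    intro i
    rw [mean_range (Φ i) N F hFinv, sum_filter]
    have h1 : ∑ c, F c * g i c = (∑ c, if c ∈ LinearMap.range (Φ i) ⊔ N then F c else 0) *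
        (G / Nat.card (M i)) := by
      rw [sum_mul]
      refine sum_congr rfl fun c _ => ?_
      simp only [hg, hM]
      split_ifs <;> simp
    rw [h1]
    have := (hMc i).ne'
    simp only [hM] at this ⊢
    field_simp
  have hcardM : ∀ i, ∑ c, g i c = G := by
    intro i
    simp only [hg]
    rw [← sum_filter, sum_const, nsmul_eq_mul]
    have h1 : ((univ.filter fun c => c ∈ M i).card : ℝ) = Nat.card (M i) := by
      rw [Nat.card_eq_fintype_card, Fintype.card_subtype]
    rw [h1]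
    have := (hMc i).ne'
    field_simp
  have hpair : ∀ i i', ∑ c, g i c * g i' c = G * Nat.card (wit Φ a i i') := by
    intro i i'
    have h1 : ∑ c, g i c * g i' c = (Nat.card (M i ⊓ M i' : Submodule K (E → K)) : ℝ) *
        (G / Nat.card (M i) * (G / Nat.card (M i'))) := by
      have h2 : ∀ c, g i c * g i' c = if c ∈ M i ⊓ M i' then
          (G / Nat.card (M i) * (G / Nat.card (M i'))) else 0 := by
        intro c
        simp only [hg, Submodule.mem_inf]
        by_cases h3 : c ∈ M i <;> by_cases h4 : c ∈ M i' <;> simp [h3, h4]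
      simp only [h2]
      rw [← sum_filter, sum_const, nsmul_eq_mul]
      congr 2
      rw [Nat.card_eq_fintype_card, Fintype.card_subtype]
    have hq : (Nat.card K : ℝ) ≠ 0 := by
      have : 0 < Nat.card K := Nat.card_pos
      exact_mod_cast this.ne'
    have hGc : G = (Nat.card K : ℝ) ^ Fintype.card E := by
      rw [hG, Fintype.card_fun, Nat.card_eq_fintype_card]
      push_cast
      rfl
    have hsub : ∀ L : Submodule K (E → K), (Nat.card L : ℝ) = (Nat.card K : ℝ) ^ finrank K L := by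
      intro L
      rw [Module.natCard_eq_pow_finrank (K := K) (V := L)]
      push_cast
      rfl
    rw [h1, hGc, wit, hsub, hsub, hsub, hsub]
    have h5 := Submodule.finrank_sup_add_finrank_inf_eq (M i) (M i')
    have h6 := finrank_orth (M i ⊔ M i')
    have h7 : Fintype.card E + finrank K (M i ⊓ M i' : Submodule K (E → K)) =
        finrank K (orth (M i ⊔ M i')) + (finrank K (M i) + finrank K (M i')) := by omega
    have h8 : (Nat.card K : ℝ) ^ Fintype.card E *
        (Nat.card K : ℝ) ^ finrank K (M i ⊓ M i' : Submodule K (E → K)) =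
        (Nat.card K : ℝ) ^ finrank K (orth (M i ⊔ M i')) *
        ((Nat.card K : ℝ) ^ finrank K (M i) * (Nat.card K : ℝ) ^ finrank K (M i')) := by
      rw [← pow_add, h7, pow_add, pow_add]
    field_simp
    rw [mul_comm ((Nat.card K : ℝ) ^ finrank K (M i ⊓ M i' : Submodule K (E → K))), h8]
    ring
  -- the two expectations
  have hyes : (∑ i, ∑ p, F (Φ i p)) / (Fintype.card I * Fintype.card P) =
      (∑ c, F c * D c) / G := by
    have h1 : (∑ i, ∑ p, F (Φ i p)) / (Fintype.card I * Fintype.card P) =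
        (∑ i, (∑ p, F (Φ i p)) / Fintype.card P) / Fintype.card I := by
      rw [← sum_div, div_div, mul_comm (Fintype.card P : ℝ)]
    rw [h1]
    simp only [hmean, hD]
    rw [← sum_div, sum_comm, div_right_comm]
    congr 1
    rw [sum_div]
    refine sum_congr rfl fun c _ => ?_
    rw [← mul_sum, mul_div_assoc]
  have hDsum : ∑ c, D c = G := by
    simp only [hD]
    rw [← sum_div, sum_comm]
    simp only [hcardM, sum_const, card_univ, nsmul_eq_mul]
    field_simp
  have hDsq : ∑ c, D c ^ 2 = G * ((∑ i, ∑ i', (Nat.card (wit Φ a i i') : ℝ)) /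
      (Fintype.card I : ℝ) ^ 2) := by
    have h1 : ∀ c, D c ^ 2 = (∑ i, ∑ i', g i c * g i' c) / (Fintype.card I : ℝ) ^ 2 := by
      intro c
      simp only [hD]
      rw [div_pow, sq (∑ i, g i c), sum_mul_sum]
    simp only [h1]
    rw [← sum_div, sum_comm, mul_div_assoc']
    congr 1
    rw [mul_sum]
    refine sum_congr rfl fun i _ => ?_
    rw [sum_comm, mul_sum]
    exact sum_congr rfl fun i' _ => hpair i i'
  have hcs := Finset.sum_mul_sq_le_sq_mul_sq (univ : Finset (E → K)) F (fun c => D c - 1)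
  have hF2 : ∑ c, F c ^ 2 ≤ ∑ c, F c := by
    refine sum_le_sum fun c _ => ?_
    have h0 := hf0 (fun j => ∑ e, a j e * c e)
    have h1 := hf1 (fun j => ∑ e, a j e * c e)
    simp only [hF]
    nlinarith
  have hD2 : ∑ c, (D c - 1) ^ 2 = ∑ c, D c ^ 2 - G := by
    have h1 : ∀ c, (D c - 1) ^ 2 = D c ^ 2 - 2 * D c + 1 := fun c => by ring
    simp only [h1]
    rw [sum_add_distrib, sum_sub_distrib, ← mul_sum, hDsum]
    simp only [sum_const, card_univ, nsmul_eq_mul, mul_one]
    rw [← hG]
    ring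
  change ((∑ i, ∑ p, F (Φ i p)) / (Fintype.card I * Fintype.card P) - (∑ c, F c) / G) ^ 2 ≤
    _ * ((∑ c, F c) / G)
  have hdiff : (∑ i, ∑ p, F (Φ i p)) / (Fintype.card I * Fintype.card P) - (∑ c, F c) / G =
      (∑ c, F c * (D c - 1)) / G := by
    rw [hyes, ← sub_div, ← sum_sub_distrib]
    congr 1
    exact sum_congr rfl fun c _ => by ring
  rw [hdiff, div_pow, div_le_iff₀ (by positivity)]
  have h0 : 0 ≤ ∑ c, (D c - 1) ^ 2 := sum_nonneg fun c _ => sq_nonneg _
  calc (∑ c, F c * (D c - 1)) ^ 2 ≤ (∑ c, F c ^ 2) * ∑ c, (D c - 1) ^ 2 := hcs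
    _ ≤ (∑ c, F c) * ∑ c, (D c - 1) ^ 2 := by gcongr
    _ = _ := by
        rw [hD2, hDsq]
        field_simp

end moment

section no

variable {U V E : Type} [Fintype E] {q : ℕ} [Fact q.Prime]

open Classical in
theorem no_card3 [DecidableEq E] [Fintype U] [Fintype V] {s : E → U} {d : E → V} {δ : ℝ}
    (hδ : 0 < δ) (hδ1 : δ ≤ 1 / 4)
    (hm : 3 * ((Fintype.card U : ℝ) + Fintype.card V + 1) ≤ δ * Fintype.card E)
    (hq : 8 / δ ^ 3 ≤ q) :
    ((univ.filter fun c : E → ZMod q => ∃ (x : U → ZMod q) (y : V → ZMod q),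
        δ * Fintype.card E <
          ((univ.filter fun e => (x (s e) + c e) ^ 2 = y (d e)).card : ℝ)).card : ℝ)
      ≤ (q : ℝ) ^ Fintype.card E * (1 / q) := by
  have hq0 : (0 : ℝ) < q := by exact_mod_cast (Fact.out : q.Prime).pos
  have hq512 : (512 : ℝ) ≤ q := by
    refine le_trans ?_ hq
    rw [le_div_iff₀ (by positivity)]
    have : δ ^ 3 ≤ (1 / 4) ^ 3 := by gcongr
    linarith
  set m := Fintype.card E with hmdef
  set Q : ℝ := (q : ℝ) ^ (1 / 3 : ℝ) with hQ
  have hQ0 : 0 < Q := by positivity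
  have hQ3 : Q ^ 3 = q := by
    rw [hQ, ← Real.rpow_natCast, ← Real.rpow_mul hq0.le]
    norm_num
  have hQ4 : 8 ≤ Q := by
    by_contra hlt
    push Not at hlt
    have : Q ^ 3 < 8 ^ 3 := by gcongr
    rw [hQ3] at this
    linarith
  have hδQ : 2 ≤ δ * Q := by
    by_contra hlt
    push Not at hlt
    have h1 : (δ * Q) ^ 3 < 2 ^ 3 := by gcongr
    rw [mul_pow, hQ3] at h1
    rw [div_le_iff₀ (by positivity)] at hq
    linarith [mul_comm (q : ℝ) (δ ^ 3)]
  set lam : ℝ := δ * q / 2 with hlam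
  have hlamQ : Q ^ 2 ≤ lam := by
    rw [hlam, ← hQ3]
    nlinarith [pow_pos hQ0 2]
  have hlam1 : 1 ≤ lam := by nlinarith
  have hlam0 : 0 < lam := by linarith
  have hexp : Real.exp 1 ≤ Q := by linarith [Real.exp_one_lt_d9]
  -- one labeling
  have hone : ∀ (x : U → ZMod q) (y : V → ZMod q),
      ((univ.filter fun c : E → ZMod q =>
        δ * m < ((univ.filter fun e => (x (s e) + c e) ^ 2 = y (d e)).card : ℝ)).card : ℝ) ≤
      (q : ℝ) ^ m * (1 / Q ^ (δ * m)) := by
    intro x y
    have h1 := chern2 (q := q) (fun e => x (s e)) (fun e => y (d e)) (t := δ * m) hlam1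
    have h2 : ((q : ℝ) + 2 * lam) ^ m ≤ (q : ℝ) ^ m * Q ^ (δ * m) := by
      have h3 : (q : ℝ) + 2 * lam ≤ q * Real.exp δ := by
        have := Real.add_one_le_exp δ
        calc (q : ℝ) + 2 * lam ≤ q * (δ + 1) := by rw [hlam]; linarith
          _ ≤ q * Real.exp δ := by gcongr
      calc ((q : ℝ) + 2 * lam) ^ m ≤ (q * Real.exp δ) ^ m := by
            gcongr
        _ = (q : ℝ) ^ m * Real.exp 1 ^ (δ * m) := by
            rw [mul_pow, ← Real.exp_nat_mul, Real.exp_one_rpow]
            ring_nf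
        _ ≤ _ := by gcongr
    have h4 : (Q ^ 2) ^ (δ * m) ≤ lam ^ (δ * m) := by gcongr
    have h5 : ((Q ^ 2 : ℝ)) ^ (δ * m) = Q ^ (δ * m) * Q ^ (δ * m) := by
      rw [sq, Real.mul_rpow hQ0.le hQ0.le]
    have hQp : 0 < Q ^ (δ * m) := by positivity
    set A : ℝ := ((univ.filter fun c : E → ZMod q =>
        δ * m < ((univ.filter fun e => (x (s e) + c e) ^ 2 = y (d e)).card : ℝ)).card : ℝ) with hA
    have hA0 : 0 ≤ A := by positivity
    have h6 : A * (Q ^ (δ * m) * Q ^ (δ * m)) ≤ (q : ℝ) ^ m * Q ^ (δ * m) := by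
      rw [← h5]
      exact (mul_le_mul_of_nonneg_left h4 hA0).trans (h1.trans h2)
    rw [mul_one_div, le_div_iff₀ hQp]
    have h7 : (A * Q ^ (δ * m)) * Q ^ (δ * m) ≤ (q : ℝ) ^ m * Q ^ (δ * m) := by
      rw [mul_assoc]
      exact h6
    exact le_of_mul_le_mul_right h7 hQp
  have hsum : ((univ.filter fun c : E → ZMod q => ∃ (x : U → ZMod q) (y : V → ZMod q),
        δ * m < ((univ.filter fun e => (x (s e) + c e) ^ 2 = y (d e)).card : ℝ)).card : ℝ) ≤
      ∑ _xy : (U → ZMod q) × (V → ZMod q), (q : ℝ) ^ m * (1 / Q ^ (δ * m)) := by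
    have hsub : (univ.filter fun c : E → ZMod q => ∃ (x : U → ZMod q) (y : V → ZMod q),
        δ * m < ((univ.filter fun e => (x (s e) + c e) ^ 2 = y (d e)).card : ℝ)) ⊆
        (univ : Finset ((U → ZMod q) × (V → ZMod q))).biUnion fun xy =>
          univ.filter fun c : E → ZMod q =>
            δ * m < ((univ.filter fun e => (xy.1 (s e) + c e) ^ 2 = xy.2 (d e)).card : ℝ) := by
      intro c hc
      simp only [mem_filter, mem_univ, true_and, mem_biUnion, Prod.exists] at hc ⊢
      exact hc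
    refine (Nat.cast_le.2 ((card_le_card hsub).trans card_biUnion_le)).trans ?_
    push_cast
    exact sum_le_sum fun xy _ => hone xy.1 xy.2
  refine hsum.trans ?_
  rw [sum_const, card_univ, Fintype.card_prod, Fintype.card_fun, Fintype.card_fun, ZMod.card,
    nsmul_eq_mul]
  push_cast
  set u := Fintype.card U
  set v := Fintype.card V
  have hQpow : Q ^ (3 * (u + v + 1)) ≤ Q ^ (δ * m) := by
    rw [← Real.rpow_natCast]
    apply Real.rpow_le_rpow_of_exponent_le (by linarith)
    push_cast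
    exact hm
  have hqq : Q ^ (3 * (u + v + 1)) = (q : ℝ) ^ u * (q : ℝ) ^ v * q := by
    rw [pow_mul, hQ3, pow_add, pow_add, pow_one]
  calc (q : ℝ) ^ u * (q : ℝ) ^ v * ((q : ℝ) ^ m * (1 / Q ^ (δ * m)))
      ≤ (q : ℝ) ^ u * (q : ℝ) ^ v * ((q : ℝ) ^ m * (1 / Q ^ (3 * (u + v + 1)))) := by
        gcongr
    _ = (q : ℝ) ^ m * (1 / q) := by
        rw [hqq]
        field_simp

end no

end Pool.Agent.T6.H47.SS
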