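import Pool.Agent.T6.H47.SS.Core5

/-!
Random labelings of planted square games.
-/

set_option autoImplicit false

namespace Pool.Agent.T6.H47.SS

open Finset Pool.Agent.T6.H63.LD Pool.Agent.T6.H63.SK

theorem by_pair {A B : Type} [Fintype A] [Fintype B] [DecidableEq B] (π : A → B) (w : A → ℝ)
    (h : B → ℝ) :
    ∑ a, w a * h (π a) = ∑ b, h b * ∑ a ∈ univ.filter (fun a => π a = b), w a := by
  rw [← sum_fiberwise univ π]
  refine sum_congr rfl fun b _ => ?_
  rw [mul_sum]
  refine sum_congr rfl fun a ha => ?_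
  rw [(mem_filter.1 ha).2, mul_comm]

section

variable {U V E : Type} [Fintype U] [Fintype V] [Fintype E] [DecidableEq E] {s : E → U}
  {d : E → V} {q : ℕ} [Fact q.Prime]

open Classical in
theorem process5 [DecidableEq U] [DecidableEq V] (hinj : ∀ e e', s e = s e' → d e = d e' → e = e') (t : ℕ)
    (hg : ((4 * t + 4 : ℕ) : ℕ∞) < (gr s d Set.univ).egirth) {δ : ℝ} (hδ : 0 < δ)
    (hδ1 : δ ≤ 1 / 2)
    (hm : 3 * ((Fintype.card U : ℝ) + Fintype.card V + 1) ≤ δ ^ 2 * Fintype.card E)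
    (hq : 8 / δ ^ 6 ≤ q) (T : ℕ)
    (law : (E → ZMod q) → (U → ZMod q) × (V → ZMod q) → ℝ)
    (h0 : ∀ c L, 0 ≤ law c L) (h1 : ∀ c, ∑ L, law c L = 1) (Fo : E → Set E)
    (hFo : ∀ e, (gr s d (Fo e)).IsAcyclic) (a : E → Fin T → E → ZMod q)
    (hloc : ∀ e c c', (∀ f ∈ Fo e, c f = c' f) →
      (∀ j, ∑ f, a e j f * c f = ∑ f, a e j f * c' f) →
      ∀ x y, ∑ L ∈ univ.filter (fun L => L.1 (s e) = x ∧ L.2 (d e) = y), law c L =
        ∑ L ∈ univ.filter (fun L => L.1 (s e) = x ∧ L.2 (d e) = y), law c' L)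
    (hyes : ∀ c : E → ZMod q, (∃ (x : U → ZMod q) (y : V → ZMod q),
        ∀ e, (x (s e) + c e) ^ 2 = y (d e)) → δ * Fintype.card E ≤
        ∑ L, law c L * ((univ.filter fun e => (L.1 (s e) + c e) ^ 2 = L.2 (d e)).card : ℝ)) :
    (2 : ℝ) ^ (t / (Real.logb 2 q + 4)) ≤
      2 * (Real.logb 2 q + 6) * ((T + 1 : ℕ) : ℝ) ^ 2 := by
  let F : E → (E → ZMod q) → ℝ := fun e c =>
    ∑ L, law c L * (if (L.1 (s e) + c e) ^ 2 = L.2 (d e) then 1 else 0)
  have hsum : ∀ c, ∑ e, F e c =
      ∑ L, law c L * ((univ.filter fun e => (L.1 (s e) + c e) ^ 2 = L.2 (d e)).card : ℝ) := by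
    intro c
    simp only [F]
    rw [sum_comm]
    refine sum_congr rfl fun L _ => ?_
    rw [← mul_sum, Finset.sum_boole]
  have hF0 : ∀ e c, 0 ≤ F e c := by
    intro e c
    refine sum_nonneg fun L _ => mul_nonneg (h0 c L) ?_
    split_ifs
    · exact zero_le_one
    · exact le_rfl
  have hF1 : ∀ e c, F e c ≤ 1 := by
    intro e c
    rw [← h1 c]
    refine sum_le_sum fun L _ => ?_
    have := h0 c L
    split_ifs
    · rw [mul_one]
    · rw [mul_zero]
      exact this
  have hpair : ∀ e c, F e c = ∑ xy : ZMod q × ZMod q,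
      (if (xy.1 + c e) ^ 2 = xy.2 then (1 : ℝ) else 0) *
        ∑ L ∈ univ.filter (fun L : (U → ZMod q) × (V → ZMod q) =>
          L.1 (s e) = xy.1 ∧ L.2 (d e) = xy.2), law c L := by
    intro e c
    have h2 := by_pair (fun L : (U → ZMod q) × (V → ZMod q) => (L.1 (s e), L.2 (d e))) (law c)
      (fun xy => if (xy.1 + c e) ^ 2 = xy.2 then (1 : ℝ) else 0)
    simp only [F]
    refine h2.trans (sum_congr rfl fun xy _ => ?_)
    congr 1
    refine sum_congr (filter_congr fun L _ => ?_) fun _ _ => rfl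
    rw [Prod.ext_iff]
  refine lower5 hinj t hg hδ hδ1 hm hq (T + 1) F Fo hFo
    (fun e => Fin.cons (Pi.single e 1) (a e)) hF0 hF1 ?_ ?_ ?_
  · intro e c c' hc hcf
    have he : c e = c' e := by
      have h2 := hcf 0
      simp only [Fin.cons_zero] at h2
      have h3 : ∀ c : E → ZMod q, ∑ f, (Pi.single e (1 : ZMod q) : E → ZMod q) f * c f = c e := by
        intro c
        rw [sum_eq_single e]
        · simp
        · intro f _ hf
          simp [hf]
        · intro h
          exact absurd (mem_univ _) h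
      rwa [h3, h3] at h2
    have hforms : ∀ j, ∑ f, a e j f * c f = ∑ f, a e j f * c' f := by
      intro j
      have h2 := hcf j.succ
      simpa only [Fin.cons_succ] using h2
    rw [hpair, hpair, he]
    refine sum_congr rfl fun xy _ => ?_
    rw [hloc e c c' hc hforms xy.1 xy.2]
  · intro c k hk
    rw [hsum]
    calc ∑ L, law c L * ((univ.filter fun e => (L.1 (s e) + c e) ^ 2 = L.2 (d e)).card : ℝ)
        ≤ ∑ L, law c L * k := by
          refine sum_le_sum fun L _ => mul_le_mul_of_nonneg_left ?_ (h0 c L)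
          convert hk L.1 L.2
      _ = k := by rw [← sum_mul, h1, one_mul]
  · intro c hc
    rw [hsum]
    exact hyes c hc

end

open Classical in
/-- The lower bound on a graph with `15 N / δ ^ 2` edges. -/
theorem lower_graph5 {δ : ℝ} (hδ : 0 < δ) (hδ1 : δ ≤ 1 / 2) (N : ℕ)
    (hN' : 1 / δ ^ 26 ≤ (N : ℝ)) :
    ∃ H : Finset (Fin N × Fin N), (H.card : ℝ) ≤ 15 * N / δ ^ 2 ∧
      ∀ (q : ℕ) [Fact q.Prime], 8 / δ ^ 6 ≤ (q : ℝ) → ∀ (T : ℕ)
      (law : (H → ZMod q) → (Fin N → ZMod q) × (Fin N → ZMod q) → ℝ),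
      (∀ c L, 0 ≤ law c L) → (∀ c, ∑ L, law c L = 1) → ∀ (Fo : H → Set H),
      (∀ e, (gr (fun e : H => e.1.1) (fun e : H => e.1.2) (Fo e)).IsAcyclic) →
      ∀ (a : H → Fin T → H → ZMod q),
      (∀ e c c', (∀ f ∈ Fo e, c f = c' f) → (∀ j, ∑ f, a e j f * c f = ∑ f, a e j f * c' f) →
        ∀ x y, ∑ L ∈ univ.filter (fun L => L.1 e.1.1 = x ∧ L.2 e.1.2 = y), law c L =
          ∑ L ∈ univ.filter (fun L => L.1 e.1.1 = x ∧ L.2 e.1.2 = y), law c' L) →
      (∀ c : H → ZMod q, (∃ x y : Fin N → ZMod q, ∀ e : H, (x e.1.1 + c e) ^ 2 = y e.1.2) →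
        δ * Fintype.card H ≤ ∑ L, law c L *
          ((univ.filter fun e : H => (L.1 e.1.1 + c e) ^ 2 = L.2 e.1.2).card : ℝ)) →
      (N : ℝ) ^ (1 / (37 * Real.log (1 / δ ^ 2) * Real.log q)) ≤
        6 * Real.log q * ((T + 1 : ℕ) : ℝ) ^ 2 := by
  set η : ℝ := δ ^ 2 with hηdef
  have hη : 0 < η := by positivity
  have hη1 : η ≤ 1 / 4 := by
    rw [hηdef]
    nlinarith
  have hN : 1 / η ^ 13 ≤ (N : ℝ) := by
    rw [hηdef, ← pow_mul]
    exact hN'
  set D := ⌈14 / η⌉₊ with hD
  set L := Real.log (1 / η) with hL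
  have hηinv : 4 ≤ 1 / η := by
    rw [le_div_iff₀ hη]
    linarith
  have hlog2 := Real.log_two_gt_d9
  have hlog2' := Real.log_two_lt_d9
  have hlog4 : 1.386 ≤ Real.log 4 := by
    have h1 : Real.log 4 = 2 * Real.log 2 := by
      rw [show (4 : ℝ) = 2 ^ 2 by norm_num, Real.log_pow]
      norm_num
    rw [h1]
    linarith
  have hL4 : 1.386 ≤ L := hlog4.trans (Real.log_le_log (by norm_num) hηinv)
  have hL0 : 0 < L := by linarith
  have hexpL : Real.exp L = 1 / η := Real.exp_log (by positivity)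
  have hD14 : 14 / η ≤ D := Nat.le_ceil _
  have hD15 : (D : ℝ) ≤ 14 / η + 1 := (Nat.ceil_lt_add_one (by positivity)).le
  have hD1 : (D : ℝ) + 1 ≤ (1 / η) ^ 3 := by
    have h1 : (14 : ℝ) / η = 14 * (1 / η) := by ring
    have h2 : (16 : ℝ) * (1 / η) ≤ (1 / η) ^ 3 := by
      have h3 : (4 : ℝ) ^ 2 ≤ (1 / η) ^ 2 := by gcongr
      calc (16 : ℝ) * (1 / η) = 4 ^ 2 * (1 / η) := by norm_num
        _ ≤ (1 / η) ^ 2 * (1 / η) := by gcongr
        _ = _ := by ring
    linarith
  have hNpos : (4 : ℝ) ^ 13 ≤ N := by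
    refine le_trans ?_ hN
    rw [← one_div_pow]
    gcongr
  have hN0 : (0 : ℝ) < N := lt_of_lt_of_le (by norm_num) hNpos
  set r := ⌊Real.log (N / 2) / (6 * L)⌋₊ with hr
  have hlogN : 0 ≤ Real.log (N / 2) := Real.log_nonneg (by
    rw [le_div_iff₀ (by norm_num)]
    linarith)
  have hr2 : 2 ≤ r := by
    rw [hr, Nat.le_floor_iff (by positivity), le_div_iff₀ (by positivity)]
    rw [Real.le_log_iff_exp_le (by positivity)]
    have h1 : Real.exp (((2 : ℕ) : ℝ) * (6 * L)) = (1 / η) ^ 12 := by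
      rw [← hexpL, ← Real.exp_nat_mul]
      congr 1
      push_cast
      ring
    rw [h1, le_div_iff₀ (by norm_num)]
    calc (1 / η) ^ 12 * 2 ≤ (1 / η) ^ 12 * (1 / η) := by
          gcongr
          linarith
      _ = 1 / η ^ 13 := by
          rw [← pow_succ, one_div_pow]
      _ ≤ N := hN
  have hrle : (r : ℝ) ≤ Real.log (N / 2) / (6 * L) := Nat.floor_le (by positivity)
  have hrge : Real.log (N / 2) / (6 * L) - 1 ≤ r := by
    have := Nat.lt_floor_add_one (Real.log (N / 2) / (6 * L))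
    linarith
  have hND : 2 * (D + 1) ^ (2 * r) ≤ N := by
    have h1 : ((D : ℝ) + 1) ^ (2 * r) ≤ N / 2 := by
      calc ((D : ℝ) + 1) ^ (2 * r) ≤ ((1 / η) ^ 3) ^ (2 * r) := by gcongr
        _ = Real.exp (r * (6 * L)) := by
            rw [← pow_mul, ← hexpL, ← Real.exp_nat_mul]
            congr 1
            push_cast
            ring
        _ ≤ Real.exp (Real.log (N / 2)) := by
            apply Real.exp_le_exp.2
            rwa [le_div_iff₀ (by positivity)] at hrle
        _ = N / 2 := Real.exp_log (by positivity)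
    have h2 : (2 : ℝ) * ((D : ℝ) + 1) ^ (2 * r) ≤ N := by linarith
    exact_mod_cast h2
  obtain ⟨H, hH1, hH2, hH3⟩ := exists_graph N D r (by omega) hND
  refine ⟨H, ?_, ?_⟩
  · have h1 : (H.card : ℝ) ≤ N * D := by exact_mod_cast hH2
    calc (H.card : ℝ) ≤ N * D := h1
      _ ≤ N * (14 / η + 1) := by gcongr
      _ ≤ N * (15 / η) := by
          gcongr
          have : (15 : ℝ) / η = 14 / η + 1 / η := by ring
          linarith
      _ = _ := by ring
  intro q _ hq' T law h0 h1 Fo hFo a hloc hyes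
  have hq : 8 / η ^ 3 ≤ (q : ℝ) := by
    rw [hηdef, ← pow_mul]
    exact hq'
  have hgr : gr (fun e : H => e.1.1) (fun e : H => e.1.2) Set.univ = grH H := by
    ext x y
    constructor
    · rintro ⟨e, -, he⟩
      exact ⟨e.1, e.2, he⟩
    · rintro ⟨e, he, he'⟩
      exact ⟨⟨e, he⟩, Set.mem_univ _, he'⟩
  set t := (r - 2) / 2 with ht
  have hg : ((4 * t + 4 : ℕ) : ℕ∞) <
      (gr (fun e : H => e.1.1) (fun e : H => e.1.2) Set.univ).egirth := by
    rw [hgr]
    refine lt_of_le_of_lt ?_ hH3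
    have : 4 * t + 4 ≤ 2 * r := by omega
    exact_mod_cast this
  have htr : (r : ℝ) ≤ 2 * t + 3 := by
    have : r ≤ 2 * t + 3 := by omega
    exact_mod_cast this
  have hcardH : Fintype.card H = H.card := Fintype.card_coe H
  have hm : 3 * ((Fintype.card (Fin N) : ℝ) + Fintype.card (Fin N) + 1) ≤
      η * Fintype.card H := by
    rw [hcardH, Fintype.card_fin]
    have h1 : (N : ℝ) * D ≤ 2 * H.card := by exact_mod_cast hH1
    have h2 : (N : ℝ) * (14 / η) ≤ 2 * H.card := le_trans (by gcongr) h1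
    have h3 : (N : ℝ) * (14 / η) * η ≤ 2 * H.card * η := by gcongr
    have h4 : (N : ℝ) * (14 / η) * η = 14 * N := by
      field_simp
    rw [h4] at h3
    nlinarith
  have hmain := process5 (s := fun e : H => e.1.1) (d := fun e : H => e.1.2)
    (fun e e' h1 h2 => Subtype.ext (Prod.ext h1 h2)) t hg hδ hδ1 (by
      rw [← hηdef]
      exact hm) hq' T law h0 h1 Fo hFo a hloc hyes
  have hq512 : (512 : ℝ) ≤ q := by
    refine le_trans ?_ hq
    rw [le_div_iff₀ (by positivity)]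
    have : η ^ 3 ≤ (1 / 4) ^ 3 := by gcongr
    linarith
  set lq := Real.log q with hlq
  have hlq9 : 9 * Real.log 2 ≤ lq := by
    have h1 : Real.log 512 ≤ lq := Real.log_le_log (by norm_num) hq512
    have h2 : Real.log 512 = 9 * Real.log 2 := by
      rw [show (512 : ℝ) = 2 ^ 9 by norm_num, Real.log_pow]
      norm_num
    linarith
  have hlq0 : 0 < lq := by linarith
  set l := Real.logb 2 q with hl
  have hll : l * Real.log 2 = lq := by
    rw [hl, Real.logb, div_mul_cancel₀ _ (by linarith)]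
  have hl9 : 9 ≤ l := by
    have h1 : 9 * Real.log 2 ≤ l * Real.log 2 := by rw [hll]; exact hlq9
    exact le_of_mul_le_mul_right h1 (by linarith)
  have hpowN : (N : ℝ) ^ (1 / (37 * L * lq)) ≤ 1.12 * (2 : ℝ) ^ (t / (l + 4)) := by
    have h1 : (N : ℝ) ^ (1 / (37 * L * lq)) = Real.exp (Real.log N * (1 / (37 * L * lq))) := by
      rw [Real.rpow_def_of_pos hN0]
    have h1' : (2 : ℝ) ^ (t / (l + 4)) = Real.exp (Real.log 2 * (t / (l + 4))) := by
      rw [Real.rpow_def_of_pos (by norm_num)]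
    rw [h1, h1']
    have h2 : Real.log N = Real.log (N / 2) + Real.log 2 := by
      rw [← Real.log_mul (by positivity) (by norm_num)]
      congr 1
      ring
    set A := Real.log N / (12 * L) with hA
    have hA0 : 0 ≤ A := by
      apply div_nonneg _ (by positivity)
      rw [h2]
      linarith
    have htA : A - 2.05 ≤ t := by
      have h3 : A = (Real.log (N / 2) / (6 * L)) / 2 + Real.log 2 / (12 * L) := by
        rw [hA, h2]
        field_simp
        ring
      have h4 : Real.log 2 / (12 * L) ≤ 0.05 := by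
        rw [div_le_iff₀ (by positivity)]
        nlinarith
      linarith
    have h5 : Real.log N * (1 / (37 * L * lq)) = A * (12 / (37 * lq)) := by
      rw [hA]
      field_simp
    have h6 : (12 : ℝ) / (37 * lq) ≤ Real.log 2 / (l + 4) := by
      rw [div_le_div_iff₀ (by positivity) (by linarith), ← hll]
      have h7 : (0.4804 : ℝ) ≤ Real.log 2 * Real.log 2 := by nlinarith
      nlinarith
    have h7 : Real.log N * (1 / (37 * L * lq)) ≤ 0.11 + Real.log 2 * (t / (l + 4)) := by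
      rw [h5]
      have h8 : Real.log 2 * (t / (l + 4)) = Real.log 2 / (l + 4) * t := by ring
      have h9 : 0 ≤ Real.log 2 / (l + 4) := by
        apply div_nonneg <;> linarith
      have h10 : Real.log 2 / (l + 4) * 2.05 ≤ 0.11 := by
        rw [div_mul_eq_mul_div, div_le_iff₀ (by linarith)]
        nlinarith
      rw [h8]
      calc A * (12 / (37 * lq)) ≤ A * (Real.log 2 / (l + 4)) := by gcongr
        _ = Real.log 2 / (l + 4) * 2.05 + Real.log 2 / (l + 4) * (A - 2.05) := by ring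
        _ ≤ 0.11 + Real.log 2 / (l + 4) * t := by gcongr
    calc Real.exp (Real.log N * (1 / (37 * L * lq)))
        ≤ Real.exp (0.11 + Real.log 2 * (t / (l + 4))) := Real.exp_le_exp.2 h7
      _ = Real.exp 0.11 * Real.exp (Real.log 2 * (t / (l + 4))) := Real.exp_add _ _
      _ ≤ 1.12 * Real.exp (Real.log 2 * (t / (l + 4))) := by
          gcongr
          have := Real.exp_bound' (x := 0.11) (by norm_num) (by norm_num) (n := 3) (by norm_num)
          refine this.trans ?_
          simp [Finset.sum_range_succ, Nat.factorial]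
          norm_num
  have hfin : 1.12 * (2 * (l + 6)) ≤ 6 * lq := by
    rw [← hll]
    nlinarith
  calc (N : ℝ) ^ (1 / (37 * L * lq)) ≤ 1.12 * (2 : ℝ) ^ (t / (l + 4)) := hpowN
    _ ≤ 1.12 * (2 * (l + 6) * ((T + 1 : ℕ) : ℝ) ^ 2) := by gcongr
    _ = 1.12 * (2 * (l + 6)) * ((T + 1 : ℕ) : ℝ) ^ 2 := by ring
    _ ≤ 6 * lq * ((T + 1 : ℕ) : ℝ) ^ 2 := by gcongr

end Pool.Agent.T6.H47.SS
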