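import Pool.Agent.T6.H47.SS.For

/-!
Signed flows supported on a forest and in the span of few further forms.
-/

set_option autoImplicit false

namespace Pool.Agent.T6.H47.SS

open Finset Module Pool.Agent.T6.H63.LD Pool.Agent.T6.H63.SK

variable {U V E : Type} [Fintype E] {s : E → U} {d : E → V} {q : ℕ} [Fact q.Prime]
  [DecidableEq E]

open Classical in
theorem span_sum (hinj : ∀ e e', s e = s e' → d e = d e' → e = e') (t : ℕ)
    (hg : ((2 * (2 * t + 2) : ℕ) : ℕ∞) < (gr s d Set.univ).egirth) (hq2 : q ≠ 2) (T W : ℕ)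
    (hx : 16 * ((q : ℝ) ^ (Nat.log 2 (T * W) + 1) * ((T * W : ℕ) : ℝ) ^ 2) ≤ 2 ^ t)
    (a : Fin T → E → ZMod q) (ε : E → Bool) :
    ∑ σ : E → Bool, ((univ.filter fun b : E → ZMod q =>
        b ∈ Submodule.span (ZMod q) (Set.range a) ∧ Cf s d ε σ b).card : ℝ) ≤
      2 ^ Fintype.card E * (16 / 15 + (q : ℝ) ^ T / 2 ^ W) := by
  obtain ⟨V0, hV0, hlow⟩ := exists_V0 (d := d) T W a
  have hq1 : (1 : ℝ) ≤ q := by exact_mod_cast (Fact.out : q.Prime).one_lt.le
  set n := Fintype.card E with hn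
  -- one colouring
  set H : (E → Bool) → Finset (E → ZMod q) := fun σ => univ.filter fun b =>
    (b ∈ Submodule.span (ZMod q) (Set.range a) ∧ W ≤ (tv d b).card) ∧ Cf s d ε σ b with hH
  have hone : ∀ σ : E → Bool, ((univ.filter fun b : E → ZMod q =>
        b ∈ Submodule.span (ZMod q) (Set.range a) ∧ Cf s d ε σ b).card : ℝ) ≤
      (q : ℝ) ^ finrank (ZMod q) (JV s d (fun e => sg q (ε e)) V0 σ) + (H σ).card := by
    intro σ
    set J := JV s d (fun e => sg q (ε e)) V0 σ with hJ
    have h1 : (Nat.card J : ℝ) = (q : ℝ) ^ finrank (ZMod q) J := by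
      rw [Module.natCard_eq_pow_finrank (K := ZMod q) (V := J), Nat.card_zmod]
      push_cast
      rfl
    have h3 : Nat.card J = (univ.filter fun b => b ∈ J).card := by
      rw [Nat.card_eq_fintype_card, Fintype.card_subtype]
    rw [← h1, h3]
    norm_cast
    refine (card_le_card ?_).trans (card_union_le _ _)
    intro b hb
    obtain ⟨h4, h7⟩ := (mem_filter.1 hb).2
    rw [mem_union]
    by_cases hW : W ≤ (tv d b).card
    · right
      rw [hH]
      simp only [mem_filter, mem_univ, true_and]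
      exact ⟨⟨h4, hW⟩, h7⟩
    · left
      rw [mem_filter]
      exact ⟨mem_univ _, h7.1, h7.2, hlow b h4 (by omega)⟩
  have hlight : ∑ σ : E → Bool, (q : ℝ) ^ finrank (ZMod q)
      (JV s d (fun e => sg q (ε e)) V0 σ) ≤ 2 ^ n * (16 / 15) := by
    refine light hinj t hg (fun e => sg_ne _) V0 q hq1 (le_trans ?_ hx)
    have h1 : (q : ℝ) ^ (Nat.log 2 V0.card + 1) ≤ (q : ℝ) ^ (Nat.log 2 (T * W) + 1) :=
      pow_le_pow_right₀ hq1 (Nat.succ_le_succ (Nat.log_mono_right hV0))
    have h2 : (V0.card : ℝ) ≤ ((T * W : ℕ) : ℝ) := by exact_mod_cast hV0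
    gcongr
  have hheavy : ∑ σ : E → Bool, ((H σ).card : ℝ) ≤ 2 ^ n * ((q : ℝ) ^ T / 2 ^ W) := by
    set A := univ.filter fun b : E → ZMod q =>
      b ∈ Submodule.span (ZMod q) (Set.range a) ∧ W ≤ (tv d b).card with hA
    have h1 : ∀ σ, ((H σ).card : ℝ) = ∑ b ∈ A, if Cf s d ε σ b then (1 : ℝ) else 0 := by
      intro σ
      rw [Finset.sum_boole, hH, hA, filter_filter]
    simp only [h1]
    rw [sum_comm]
    have hAc : (A.card : ℝ) ≤ (q : ℝ) ^ T := by
      have h2 : A.card ≤ Nat.card (Submodule.span (ZMod q) (Set.range a)) := by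
        rw [Nat.card_eq_fintype_card, Fintype.card_subtype]
        exact card_le_card fun b hb => by
          rw [mem_filter] at hb ⊢
          exact ⟨mem_univ _, hb.2.1⟩
      rw [Module.natCard_eq_pow_finrank (K := ZMod q), Nat.card_zmod] at h2
      have h3 : Module.finrank (ZMod q) (Submodule.span (ZMod q) (Set.range a)) ≤ T := by
        have := finrank_range_le_card (R := ZMod q) a
        rwa [Fintype.card_fin] at this
      have h4 : A.card ≤ q ^ T :=
        h2.trans (Nat.pow_le_pow_right (Fact.out : q.Prime).pos h3)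
      exact_mod_cast h4
    have h2 : ∀ b ∈ A, ∑ σ : E → Bool, (if Cf s d ε σ b then (1 : ℝ) else 0) ≤ 2 ^ n / 2 ^ W := by
      intro b hb
      rw [Finset.sum_boole, le_div_iff₀ (by positivity)]
      have h3 := heavy_card (s := s) (d := d) ε b
      have h4 : 2 ^ W ≤ 2 ^ (tv d b).card :=
        Nat.pow_le_pow_right (by norm_num) (mem_filter.1 hb).2.2
      have h5 := (Nat.mul_le_mul_left _ h4).trans h3
      exact_mod_cast h5
    calc ∑ b ∈ A, ∑ σ : E → Bool, (if Cf s d ε σ b then (1 : ℝ) else 0)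
        ≤ ∑ _b ∈ A, (2 : ℝ) ^ n / 2 ^ W := sum_le_sum h2
      _ = A.card * (2 ^ n / 2 ^ W) := by rw [sum_const, nsmul_eq_mul]
      _ ≤ (q : ℝ) ^ T * (2 ^ n / 2 ^ W) := by gcongr
      _ = _ := by ring
  calc ∑ σ : E → Bool, ((univ.filter fun b : E → ZMod q =>
        b ∈ Submodule.span (ZMod q) (Set.range a) ∧ Cf s d ε σ b).card : ℝ)
      ≤ ∑ σ : E → Bool, ((q : ℝ) ^ finrank (ZMod q) (JV s d (fun e => sg q (ε e)) V0 σ) +
        (H σ).card) := sum_le_sum fun σ _ => hone σ
    _ ≤ _ := by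
        rw [sum_add_distrib, mul_add]
        exact add_le_add hlight hheavy


/-- The submodule of the signed flows. -/
def SfM (s : E → U) (d : E → V) (q : ℕ) [Fact q.Prime] (ε : E → Bool) :
    Submodule (ZMod q) (E → ZMod q) where
  carrier := {b | Sf s d ε b}
  add_mem' {a b} ha hb := by
    classical
    refine ⟨fun u => ?_, fun v => ?_⟩
    · simp only [Pi.add_apply, sum_add_distrib]
      rw [ha.1 u, hb.1 u, add_zero]
    · simp only [Pi.add_apply, mul_add, sum_add_distrib]
      rw [ha.2 v, hb.2 v, add_zero]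
  zero_mem' := by
    classical
    exact ⟨fun u => by simp, fun v => by simp⟩
  smul_mem' t a ha := by
    classical
    refine ⟨fun u => ?_, fun v => ?_⟩
    · simp only [Pi.smul_apply, smul_eq_mul]
      rw [← mul_sum, ha.1 u, mul_zero]
    · have h := ha.2 v
      simp only [Pi.smul_apply, smul_eq_mul]
      have h1 : ∀ e, sg q (ε e) * (t * a e) = t * (sg q (ε e) * a e) := fun e => by ring
      simp only [h1]
      rw [← mul_sum, h, mul_zero]

/-- Signed flows in the span of the coordinates of a forest and `T` forms: the dimension is at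
most `T`. -/
theorem finrank_le [Finite U] [Finite V] (hinj : ∀ e e', s e = s e' → d e = d e' → e = e')
    {F : Set E} (hF : (gr s d F).IsAcyclic) {T : ℕ} (a : Fin T → E → ZMod q) (ε : E → Bool)
    (M : Submodule (ZMod q) (E → ZMod q)) (hM1 : M ≤ SfM s d q ε)
    (hM2 : ∀ b ∈ M, ∃ b' ∈ Submodule.span (ZMod q) (Set.range a), ∀ f, f ∉ F → b f = b' f) :
    finrank (ZMod q) M ≤ T := by
  classical
  set ρ : (E → ZMod q) →ₗ[ZMod q] ({f // f ∉ F} → ZMod q) :=
    LinearMap.funLeft (ZMod q) (ZMod q) (fun f : {f // f ∉ F} => f.1) with hρ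
  have hρa : ∀ b f, ρ b f = b f.1 := fun b f => rfl
  have hinj' : Function.Injective (ρ.domRestrict M) := by
    rw [← LinearMap.ker_eq_bot, LinearMap.ker_eq_bot']
    intro b hb
    have h1 : (b : E → ZMod q) = 0 := by
      refine (show Sf s d ε (b : E → ZMod q) from hM1 b.2).zero_of_forest hinj hF fun f hf => ?_
      exact congrFun hb ⟨f, hf⟩
    exact Subtype.ext h1
  rw [← LinearMap.finrank_range_of_inj hinj']
  have hle : LinearMap.range (ρ.domRestrict M) ≤
      Submodule.span (ZMod q) (Set.range fun j => ρ (a j)) := by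
    rintro _ ⟨b, rfl⟩
    obtain ⟨b', hb', hbb⟩ := hM2 b b.2
    have h1 : ρ.domRestrict M b = ρ b' := by
      funext f
      exact hbb f.1 f.2
    rw [h1]
    have h2 : Submodule.span (ZMod q) (Set.range a) ≤
        (Submodule.span (ZMod q) (Set.range fun j => ρ (a j))).comap ρ := by
      rw [Submodule.span_le]
      rintro _ ⟨j, rfl⟩
      exact Submodule.subset_span ⟨j, rfl⟩
    exact h2 hb'
  refine (Submodule.finrank_mono hle).trans ?_
  have := finrank_range_le_card (R := ZMod q) (fun j => ρ (a j))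
  rwa [Fintype.card_fin] at this

theorem exists_family {T : ℕ} (M : Submodule (ZMod q) (E → ZMod q))
    (hM : finrank (ZMod q) M ≤ T) :
    ∃ a : Fin T → E → ZMod q, M ≤ Submodule.span (ZMod q) (Set.range a) := by
  set B := Module.finBasis (ZMod q) M
  refine ⟨fun j => if h : j.1 < finrank (ZMod q) M then (B ⟨j.1, h⟩ : E → ZMod q) else 0, ?_⟩
  intro b hb
  have h1 : (⟨b, hb⟩ : M) ∈ Submodule.span (ZMod q) (Set.range B) := by
    rw [B.span_eq]
    trivial
  have h2 : Submodule.span (ZMod q) (Set.range B) ≤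
      (Submodule.span (ZMod q) (Set.range fun j : Fin T =>
        if h : j.1 < finrank (ZMod q) M then (B ⟨j.1, h⟩ : E → ZMod q) else 0)).comap
        M.subtype := by
    rw [Submodule.span_le]
    rintro _ ⟨i, rfl⟩
    apply Submodule.subset_span
    refine ⟨⟨i.1, i.2.trans_le hM⟩, ?_⟩
    simp
  exact h2 h1

open Classical in
theorem wit_sum5 [Finite U] [Finite V] (hinj : ∀ e e', s e = s e' → d e = d e' → e = e') (t : ℕ)
    (hg : ((2 * (2 * t + 2) : ℕ) : ℕ∞) < (gr s d Set.univ).egirth) (hq2 : q ≠ 2) (T W : ℕ)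
    (hx : 16 * ((q : ℝ) ^ (Nat.log 2 (T * W) + 1) * ((T * W : ℕ) : ℝ) ^ 2) ≤ 2 ^ t)
    {F : Set E} (hF : (gr s d F).IsAcyclic) (a : Fin T → E → ZMod q) {m : ℕ}
    (a' : Fin m → E → ZMod q)
    (ha' : ∀ j, (∀ f, f ∉ F → a' j f = 0) ∨ a' j ∈ Set.range a) (ε : E → Bool) :
    ∑ ε' : E → Bool, (Nat.card (wit (Phi2 s d q) a' ε ε') : ℝ) ≤
      2 ^ Fintype.card E * (16 / 15 + (q : ℝ) ^ T / 2 ^ W) := by
  set M : Submodule (ZMod q) (E → ZMod q) :=
    Submodule.span (ZMod q) (Set.range a') ⊓ SfM s d q ε with hM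
  have hMT : finrank (ZMod q) M ≤ T := by
    refine finrank_le hinj hF a ε M inf_le_right ?_
    intro b hb
    have hb1 := (Submodule.mem_inf.1 hb).1
    have hle : Submodule.span (ZMod q) (Set.range a') ≤
        (Submodule.span (ZMod q) (Set.range a)) ⊔
          (LinearMap.ker (LinearMap.funLeft (ZMod q) (ZMod q) (fun f : {f // f ∉ F} => f.1))) := by
      rw [Submodule.span_le]
      rintro _ ⟨j, rfl⟩
      rcases ha' j with h | h
      · apply Submodule.mem_sup_right
        rw [LinearMap.mem_ker]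
        funext f
        exact h f.1 f.2
      · exact Submodule.mem_sup_left (Submodule.subset_span h)
    obtain ⟨y, hy, z, hz, hyz⟩ := Submodule.mem_sup.1 (hle hb1)
    refine ⟨y, hy, fun f hf => ?_⟩
    have h1 : z f = 0 := congrFun (LinearMap.mem_ker.1 hz) ⟨f, hf⟩
    rw [← hyz, Pi.add_apply, h1, add_zero]
  obtain ⟨a'', ha''⟩ := exists_family M hMT
  have hone : ∀ ε' : E → Bool, (Nat.card (wit (Phi2 s d q) a' ε ε') : ℝ) ≤
      ((univ.filter fun b : E → ZMod q => b ∈ Submodule.span (ZMod q) (Set.range a'') ∧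
        Cf s d ε (fun e => ε e == ε' e) b).card : ℝ) := by
    intro ε'
    have h2 : Nat.card (wit (Phi2 s d q) a' ε ε') =
        (univ.filter fun b => b ∈ wit (Phi2 s d q) a' ε ε').card := by
      rw [Nat.card_eq_fintype_card, Fintype.card_subtype]
    rw [h2]
    norm_cast
    apply card_le_card
    intro b hb
    obtain ⟨h4, h5, h6⟩ := mem_wit _ _ _ _ (mem_filter.1 hb).2
    rw [mem_filter]
    exact ⟨mem_univ _, ha'' (Submodule.mem_inf.2 ⟨h4, sf_of_orth h5⟩), cf_of_orth hq2 h5 h6⟩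
  have hre : ∀ G : (E → Bool) → ℝ, ∑ ε' : E → Bool, G (fun e => ε e == ε' e) = ∑ σ, G σ := by
    intro G
    have hinv : Function.Involutive fun (ε' : E → Bool) (e : E) => (ε e == ε' e) := by
      intro x
      funext e
      change (ε e == (ε e == x e)) = x e
      cases ε e <;> cases x e <;> rfl
    exact Equiv.sum_comp (Function.Involutive.toPerm _ hinv) G
  refine (sum_le_sum fun ε' _ => hone ε').trans ?_
  rw [hre fun σ => ((univ.filter fun b : E → ZMod q =>
    b ∈ Submodule.span (ZMod q) (Set.range a'') ∧ Cf s d ε σ b).card : ℝ)]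
  exact span_sum hinj t hg hq2 T W hx a'' ε

end Pool.Agent.T6.H47.SS
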